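import Pool.Agent.H417R3.Relax

/-!
# The path maximises the relaxation time among connected graphs with `m` edges

For every `m ≥ 1`, `R(m) = R_tree(m) = T_rel(P_m) = 1 / (1 - cos (π / m))`.
-/

set_option autoImplicit false

namespace Pool.Agent.Results.MP_ea35a0_co.PathIsExtremal

open Finset Matrix Filter Topology

/-- The transition matrix of simple random walk on `G`. -/
noncomputable def walkMatrix {n : ℕ} (G : SimpleGraph (Fin n)) [DecidableRel G.Adj] :
    Matrix (Fin n) (Fin n) ℝ :=
  Matrix.of fun x y => if G.Adj x y then 1 / (G.degree x : ℝ) else 0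

/-- The second largest eigenvalue `λ₂` of simple random walk on a connected graph: the largest
eigenvalue of the transition matrix different from `1` (for a connected graph the eigenvalue `1`
is simple). -/
noncomputable def lam2 {n : ℕ} (G : SimpleGraph (Fin n)) [DecidableRel G.Adj] : ℝ :=
  sSup {t : ℝ | t ≠ 1 ∧ ∃ f : Fin n → ℝ, f ≠ 0 ∧ walkMatrix G *ᵥ f = t • f}

/-- The relaxation time `1 / (1 - λ₂)`. -/
noncomputable def relTime {n : ℕ} (G : SimpleGraph (Fin n)) [DecidableRel G.Adj] : ℝ :=
  1 / (1 - lam2 G)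

/-- `R(m)`: the maximum of the relaxation time over connected graphs with `m` edges. -/
noncomputable def R (m : ℕ) : ℝ :=
  sSup {t : ℝ | ∃ (n : ℕ) (G : SimpleGraph (Fin n)) (_ : DecidableRel G.Adj),
    G.Connected ∧ G.edgeFinset.card = m ∧ t = relTime G}

/-- `R_tree(m)`: the maximum of the relaxation time over trees with `m` edges. -/
noncomputable def Rtree (m : ℕ) : ℝ :=
  sSup {t : ℝ | ∃ (n : ℕ) (G : SimpleGraph (Fin n)) (_ : DecidableRel G.Adj),
    G.IsTree ∧ G.edgeFinset.card = m ∧ t = relTime G}

/-- The path with `m` edges. -/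
abbrev P (m : ℕ) : SimpleGraph (Fin (m + 1)) := SimpleGraph.pathGraph (m + 1)

instance (m : ℕ) : DecidableRel (P m).Adj := fun _ _ =>
  decidable_of_iff _ SimpleGraph.pathGraph_adj.symm

section general

variable {n : ℕ} (G : SimpleGraph (Fin n)) [DecidableRel G.Adj]

lemma walk_mulVec (f : Fin n → ℝ) (x : Fin n) :
    (walkMatrix G *ᵥ f) x = (1 / (G.degree x : ℝ)) * ∑ y, if G.Adj x y then f y else 0 := by
  simp only [walkMatrix, Matrix.mulVec, dotProduct, Matrix.of_apply, Finset.mul_sum]
  refine Finset.sum_congr rfl fun y _ => ?_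
  split_ifs <;> ring

lemma degree_pos (hG : G.Connected) (hm : 1 ≤ G.edgeFinset.card) (x : Fin n) :
    0 < G.degree x := by
  have hne : G.edgeFinset.Nonempty := Finset.card_pos.mp hm
  obtain ⟨e, he⟩ := hne
  haveI : Nontrivial (Fin n) := by
    induction e using Sym2.ind with
    | _ u v =>
      rw [SimpleGraph.mem_edgeFinset, SimpleGraph.mem_edgeSet] at he
      exact ⟨u, v, he.ne⟩
  exact hG.preconnected.degree_pos_of_nontrivial x

lemma deg_mul {f : Fin n → ℝ} {t : ℝ} (hd : ∀ x, 0 < G.degree x)
    (h : walkMatrix G *ᵥ f = t • f) (x : Fin n) :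
    ∑ y, (if G.Adj x y then f y else 0) = t * ((G.degree x : ℝ) * f x) := by
  have h1 := congrFun h x
  rw [walk_mulVec] at h1
  simp only [Pi.smul_apply, smul_eq_mul] at h1
  have hx : (G.degree x : ℝ) ≠ 0 := by
    have := hd x
    positivity
  field_simp at h1
  linarith

lemma sum_deg_adj (F : Fin n → ℝ) :
    ∑ x, ∑ y, (if G.Adj x y then F y else 0) = ∑ x, (G.degree x : ℝ) * F x := by
  rw [Finset.sum_comm]
  refine Finset.sum_congr rfl fun y _ => ?_
  rw [← Finset.sum_filter, Finset.sum_const, nsmul_eq_mul]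
  congr 2
  rw [← SimpleGraph.card_neighborFinset_eq_degree]
  congr 1
  ext w
  simp [SimpleGraph.adj_comm]

lemma eig_le (hG : G.Connected) (hm : 1 ≤ G.edgeFinset.card) {t : ℝ} (ht : t ≠ 1)
    {f : Fin n → ℝ} (hf : f ≠ 0) (h : walkMatrix G *ᵥ f = t • f) :
    t ≤ Real.cos (Real.pi / G.edgeFinset.card) := by
  have hd := degree_pos G hG hm
  have hrow := deg_mul G hd h
  have hzero : ∑ v, (G.degree v : ℝ) * f v = 0 := by
    have h1 := sum_deg_adj G f
    simp only [hrow, ← Finset.mul_sum] at h1
    have h2 : (1 - t) * ∑ v, (G.degree v : ℝ) * f v = 0 := by linarith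
    rcases mul_eq_zero.mp h2 with h3 | h3
    · exact absurd (by linarith) ht
    · exact h3
  have key := Pool.Agent.H417R3.gap_bound hG hm f hzero
  have hD : (1 / 2 : ℝ) * ∑ u, ∑ v, (if G.Adj u v then (f u - f v) ^ 2 else 0) =
      (1 - t) * ∑ v, (G.degree v : ℝ) * f v ^ 2 := by
    have e1 : ∀ u v, (if G.Adj u v then (f u - f v) ^ 2 else 0) =
        (if G.Adj u v then f u ^ 2 else 0) + (if G.Adj u v then f v ^ 2 else 0) -
          2 * (f u * (if G.Adj u v then f v else 0)) := by
      intro u v
      split_ifs <;> ring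
    simp only [e1, Finset.sum_sub_distrib, Finset.sum_add_distrib, ← Finset.mul_sum, hrow]
    have e2 : ∑ u, ∑ v, (if G.Adj u v then f u ^ 2 else 0) = ∑ v, (G.degree v : ℝ) * f v ^ 2 := by
      refine Finset.sum_congr rfl fun u _ => ?_
      rw [← Finset.sum_filter, Finset.sum_const, nsmul_eq_mul]
      congr 2
      rw [← SimpleGraph.card_neighborFinset_eq_degree]
      congr 1
      ext w
      simp
    rw [e2, sum_deg_adj G (fun v => f v ^ 2)]
    have e3 : ∑ u, f u * (t * ((G.degree u : ℝ) * f u)) = t * ∑ v, (G.degree v : ℝ) * f v ^ 2 := by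
      rw [Finset.mul_sum]
      refine Finset.sum_congr rfl fun u _ => ?_
      ring
    rw [e3]
    ring
  rw [hD] at key
  have hpos : 0 < ∑ v, (G.degree v : ℝ) * f v ^ 2 := by
    obtain ⟨i, hi⟩ : ∃ i, f i ≠ 0 := by
      by_contra hcon
      push Not at hcon
      exact hf (funext hcon)
    apply Finset.sum_pos' (fun v _ => by positivity)
    refine ⟨i, Finset.mem_univ _, ?_⟩
    have : (0 : ℝ) < G.degree i := by exact_mod_cast hd i
    positivity
  have := le_of_mul_le_mul_right key hpos
  linarith

/-- There is an eigenvalue different from `1`. -/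
lemma exists_eig_ne_one (hG : G.Connected) (hm : 1 ≤ G.edgeFinset.card) :
    ∃ t : ℝ, t ≠ 1 ∧ ∃ f : Fin n → ℝ, f ≠ 0 ∧ walkMatrix G *ᵥ f = t • f := by
  have hd := degree_pos G hG hm
  set s : Fin n → ℝ := fun x => 1 / √(G.degree x : ℝ) with hs
  have hdr : ∀ x, (0 : ℝ) < G.degree x := fun x => by exact_mod_cast hd x
  have hs0 : ∀ x, 0 < s x := fun x => by
    have := Real.sqrt_pos.mpr (hdr x)
    positivity
  have hss : ∀ x, s x * s x = 1 / (G.degree x : ℝ) := fun x => by
    simp only [hs]
    rw [div_mul_div_comm, one_mul, Real.mul_self_sqrt (hdr x).le]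
  let S : Matrix (Fin n) (Fin n) ℝ := Matrix.of fun x y => if G.Adj x y then s x * s y else 0
  have hS : S.IsHermitian := by
    ext x y
    simp only [S, Matrix.conjTranspose_apply, Matrix.of_apply, star_trivial]
    simp only [SimpleGraph.adj_comm G y x, mul_comm (s y) (s x)]
  have htr : ∑ i, hS.eigenvalues i = 0 := by
    have h1 := hS.trace_eq_sum_eigenvalues
    have h2 : S.trace = 0 := by
      simp [Matrix.trace, S]
    rw [h2] at h1
    exact_mod_cast h1.symm
  obtain ⟨v⟩ := hG.nonempty
  haveI : Nonempty (Fin n) := ⟨v⟩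
  obtain ⟨i, hi⟩ : ∃ i, hS.eigenvalues i ≤ 0 := by
    by_contra hcon
    push Not at hcon
    have := Finset.sum_pos (fun i _ => hcon i) (Finset.univ_nonempty (α := Fin n))
    linarith
  obtain ⟨g, hg⟩ : ∃ g : Fin n → ℝ,
      g = ((hS.eigenvectorBasis i : EuclideanSpace ℝ (Fin n)) : Fin n → ℝ) := ⟨_, rfl⟩
  have hg0 : g ≠ 0 := by
    intro h
    apply hS.eigenvectorBasis.orthonormal.ne_zero i
    ext u
    rw [hg] at h
    exact congrFun h u
  have hSg : S *ᵥ g = hS.eigenvalues i • g := by
    rw [hg]
    exact hS.mulVec_eigenvectorBasis i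
  refine ⟨hS.eigenvalues i, by linarith, fun x => s x * g x, ?_, ?_⟩
  · intro h
    apply hg0
    funext x
    have h1 := congrFun h x
    simp only [Pi.zero_apply, mul_eq_zero] at h1
    exact h1.resolve_left (hs0 x).ne'
  · funext x
    rw [walk_mulVec]
    have h1 := congrFun hSg x
    simp only [Matrix.mulVec, dotProduct, S, Matrix.of_apply, Pi.smul_apply, smul_eq_mul] at h1 ⊢
    have h2 : ∑ y, (if G.Adj x y then s x * s y else 0) * g y =
        s x * ∑ y, (if G.Adj x y then s y * g y else 0) := by
      rw [Finset.mul_sum]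
      refine Finset.sum_congr rfl fun y _ => ?_
      split_ifs <;> ring
    rw [h2] at h1
    rw [← hss, mul_assoc, h1]
    ring

lemma lam2_le (hG : G.Connected) (hm : 1 ≤ G.edgeFinset.card) :
    lam2 G ≤ Real.cos (Real.pi / G.edgeFinset.card) := by
  apply csSup_le
  · obtain ⟨t, h⟩ := exists_eig_ne_one G hG hm
    exact ⟨t, h⟩
  · rintro t ⟨ht, f, hf, h⟩
    exact eig_le G hG hm ht hf h

lemma cos_lt_one {m : ℕ} (hm : 1 ≤ m) : Real.cos (Real.pi / m) < 1 := by
  have hm0 : (0 : ℝ) < m := by exact_mod_cast hm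
  have h1 : Real.cos (Real.pi / m) < Real.cos 0 := by
    apply Real.cos_lt_cos_of_nonneg_of_le_pi le_rfl
    · rw [div_le_iff₀ hm0]
      have : (1 : ℝ) ≤ m := by exact_mod_cast hm
      nlinarith [Real.pi_pos]
    · positivity
  rwa [Real.cos_zero] at h1

lemma relTime_le (hG : G.Connected) (hm : 1 ≤ G.edgeFinset.card) :
    relTime G ≤ 1 / (1 - Real.cos (Real.pi / G.edgeFinset.card)) := by
  have h1 := lam2_le G hG hm
  have h2 := cos_lt_one hm
  unfold relTime
  apply one_div_le_one_div_of_le <;> linarith

end general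

/-! ### The path -/

lemma path_edges (m : ℕ) : (P m).edgeFinset.card = m := by
  have h : (P m).edgeFinset =
      (Finset.univ : Finset (Fin m)).image fun i => s(i.castSucc, i.succ) := by
    ext e
    induction e using Sym2.ind with
    | _ u v =>
      rw [SimpleGraph.mem_edgeFinset, SimpleGraph.mem_edgeSet, SimpleGraph.pathGraph_adj,
        Finset.mem_image]
      constructor
      · rintro (h | h)
        · have hu : u.val < m := by have := v.isLt; omega
          refine ⟨⟨u.val, hu⟩, Finset.mem_univ _, ?_⟩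
          rw [Sym2.eq_iff]
          left
          exact ⟨Fin.ext rfl, Fin.ext h⟩
        · have hu : v.val < m := by have := u.isLt; omega
          refine ⟨⟨v.val, hu⟩, Finset.mem_univ _, ?_⟩
          rw [Sym2.eq_iff]
          right
          exact ⟨Fin.ext rfl, Fin.ext h⟩
      · rintro ⟨i, -, hi⟩
        rw [Sym2.eq_iff] at hi
        rcases hi with ⟨rfl, rfl⟩ | ⟨rfl, rfl⟩
        · left; simp
        · right; simp
  rw [h, Finset.card_image_of_injective, Finset.card_univ, Fintype.card_fin]
  intro i j hij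
  rw [Sym2.eq_iff] at hij
  rcases hij with ⟨h1, -⟩ | ⟨h1, h2⟩
  · exact Fin.castSucc_injective _ h1
  · have e1 := congrArg Fin.val h1
    have e2 := congrArg Fin.val h2
    simp at e1 e2
    omega

lemma path_connected (m : ℕ) : (P m).Connected := SimpleGraph.pathGraph_connected m

lemma path_tree (m : ℕ) : (P m).IsTree := by
  rw [SimpleGraph.isTree_iff_connected_and_card]
  refine ⟨path_connected m, ?_⟩
  have h := path_edges m
  rw [Nat.card_eq_fintype_card, Nat.card_eq_fintype_card, Fintype.card_fin,
    ← SimpleGraph.edgeFinset_card, h]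

lemma path_eig {m : ℕ} (hm : 1 ≤ m) :
    walkMatrix (P m) *ᵥ (fun j : Fin (m + 1) => Real.cos (Real.pi * j / m)) =
      Real.cos (Real.pi / m) • (fun j : Fin (m + 1) => Real.cos (Real.pi * j / m)) := by
  have hm0 : (m : ℝ) ≠ 0 := by
    have : 0 < m := hm
    positivity
  set c : ℕ → ℝ := fun j => Real.cos (Real.pi * j / m) with hc
  have hrec : ∀ j : ℕ, c j + c (j + 2) = 2 * Real.cos (Real.pi / m) * c (j + 1) := by
    intro j
    simp only [hc]
    have e1 : Real.pi * (j : ℝ) / m = Real.pi * ((j + 1 : ℕ) : ℝ) / m - Real.pi / m := by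
      push_cast; ring
    have e2 : Real.pi * ((j + 2 : ℕ) : ℝ) / m =
        Real.pi * ((j + 1 : ℕ) : ℝ) / m + Real.pi / m := by
      push_cast; ring
    rw [e1, e2, Real.cos_sub, Real.cos_add]
    ring
  have hsum : ∀ (x : Fin (m + 1)) (F : ℕ → ℝ),
      ∑ y : Fin (m + 1), (if (P m).Adj x y then F y.val else 0) =
        (if x.val + 1 < m + 1 then F (x.val + 1) else 0) +
          (if 1 ≤ x.val then F (x.val - 1) else 0) := by
    intro x F
    have e0 : ∀ y : Fin (m + 1), (if (P m).Adj x y then F y.val else 0) =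
        (if y.val = x.val + 1 then F (x.val + 1) else 0) +
          (if y.val + 1 = x.val then F (x.val - 1) else 0) := by
      intro y
      simp only [SimpleGraph.pathGraph_adj]
      by_cases h1 : y.val = x.val + 1
      · rw [if_pos (Or.inl h1.symm), if_pos h1, if_neg (by omega), h1, add_zero]
      · by_cases h2 : y.val + 1 = x.val
        · rw [if_pos (Or.inr h2), if_neg h1, if_pos h2, zero_add, ← h2, Nat.add_sub_cancel]
        · rw [if_neg (by omega), if_neg h1, if_neg h2, add_zero]
    simp only [e0, Finset.sum_add_distrib]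
    congr 1
    · by_cases h : x.val + 1 < m + 1
      · rw [if_pos h, Finset.sum_eq_single ⟨x.val + 1, h⟩]
        · simp
        · intro y _ hy
          rw [if_neg]
          intro h'
          exact hy (Fin.ext h')
        · intro h'
          exact absurd (Finset.mem_univ _) h'
      · rw [if_neg h]
        apply Finset.sum_eq_zero
        intro y _
        rw [if_neg]
        have := y.isLt
        omega
    · by_cases h : 1 ≤ x.val
      · have hx := x.isLt
        rw [if_pos h, Finset.sum_eq_single ⟨x.val - 1, by omega⟩]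
        · rw [if_pos]
          simp only []
          omega
        · intro y _ hy
          rw [if_neg]
          intro h'
          apply hy
          apply Fin.ext
          simp only []
          omega
        · intro h'
          exact absurd (Finset.mem_univ _) h'
      · rw [if_neg h]
        apply Finset.sum_eq_zero
        intro y _
        rw [if_neg]
        omega
  have hdeg : ∀ x : Fin (m + 1), ((P m).degree x : ℝ) =
      (if x.val + 1 < m + 1 then 1 else 0) + (if 1 ≤ x.val then 1 else 0) := by
    intro x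
    rw [← hsum x (fun _ => 1), ← Finset.sum_filter, Finset.sum_const, nsmul_eq_mul, mul_one,
      ← SimpleGraph.card_neighborFinset_eq_degree]
    congr 2
    ext w
    simp
  funext x
  rw [walk_mulVec, hdeg x]
  have h1 := hsum x c
  simp only [hc] at h1
  rw [h1]
  simp only [Pi.smul_apply, smul_eq_mul]
  have hx := x.isLt
  by_cases ha : 1 ≤ x.val
  · obtain ⟨j, hj⟩ : ∃ j, x.val = j + 1 := ⟨x.val - 1, by omega⟩
    have hr := hrec j
    simp only [hc] at hr
    by_cases hb : x.val + 1 < m + 1
    · rw [if_pos hb, if_pos ha, if_pos hb, if_pos ha, hj]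
      simp only [Nat.add_sub_cancel]
      rw [show j + 1 + 1 = j + 2 from rfl]
      linarith
    · have hxm : x.val = m := by omega
      rw [if_neg hb, if_pos ha, if_neg hb, if_pos ha]
      have e1 : Real.pi * ((x.val - 1 : ℕ) : ℝ) / m = Real.pi - Real.pi / m := by
        rw [Nat.cast_sub ha, hxm]
        push_cast
        field_simp
      have e2 : Real.pi * (x.val : ℝ) / m = Real.pi := by
        rw [hxm]
        field_simp
      rw [e1, e2, Real.cos_pi_sub, Real.cos_pi]
      ring
  · have hx0 : x.val = 0 := by omega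
    have hb : x.val + 1 < m + 1 := by omega
    rw [if_pos hb, if_neg ha, if_pos hb, if_neg ha, hx0]
    simp

lemma path_lam2 {m : ℕ} (hm : 1 ≤ m) : lam2 (P m) = Real.cos (Real.pi / m) := by
  have he := path_edges m
  apply IsGreatest.csSup_eq
  constructor
  · refine ⟨(cos_lt_one hm).ne, _, ?_, path_eig hm⟩
    intro h
    have h1 := congrFun h 0
    simp at h1
  · rintro t ⟨ht, f, hf, h⟩
    have := eig_le (P m) (path_connected m) (by rw [he]; exact hm) ht hf h
    rwa [he] at this

lemma path_relTime {m : ℕ} (hm : 1 ≤ m) :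
    relTime (P m) = 1 / (1 - Real.cos (Real.pi / m)) := by
  rw [relTime, path_lam2 hm]

/-- For every `m ≥ 1` the path with `m` edges, a tree, maximises the relaxation time both among
the connected graphs and among the trees with `m` edges, and the maximum is
`1 / (1 - cos (π / m))`; every connected graph with `m` edges has relaxation time at most this
value; and this value is asymptotic to `2 m² / π²`. -/
theorem result :
    (∀ m : ℕ, 1 ≤ m →
      (∀ (n : ℕ) (G : SimpleGraph (Fin n)) [DecidableRel G.Adj], G.Connected →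
        G.edgeFinset.card = m → relTime G ≤ relTime (P m)) ∧
      Rtree m = relTime (P m) ∧ R m = relTime (P m) ∧
      relTime (P m) = 1 / (1 - Real.cos (Real.pi / m))) ∧
    Tendsto (fun m : ℕ => Rtree m / (2 * (m : ℝ) ^ 2 / Real.pi ^ 2)) atTop (𝓝 1) ∧
    Tendsto (fun m : ℕ => R m / (2 * (m : ℝ) ^ 2 / Real.pi ^ 2)) atTop (𝓝 1) := by
  have hmain : ∀ m : ℕ, 1 ≤ m → ∀ (n : ℕ) (G : SimpleGraph (Fin n)) [DecidableRel G.Adj],
      G.Connected → G.edgeFinset.card = m → relTime G ≤ relTime (P m) := by
    intro m hm n G _ hG hcard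
    rw [path_relTime hm, ← hcard]
    exact relTime_le G hG (by rw [hcard]; exact hm)
  have hR : ∀ m : ℕ, 1 ≤ m → R m = relTime (P m) := by
    intro m hm
    apply IsGreatest.csSup_eq
    constructor
    · exact ⟨m + 1, P m, inferInstance, path_connected m, path_edges m, rfl⟩
    · rintro t ⟨n, G, _, hG, hcard, rfl⟩
      exact hmain m hm n G hG hcard
  have hT : ∀ m : ℕ, 1 ≤ m → Rtree m = relTime (P m) := by
    intro m hm
    apply IsGreatest.csSup_eq
    constructor
    · exact ⟨m + 1, P m, inferInstance, path_tree m, path_edges m, rfl⟩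
    · rintro t ⟨n, G, _, hG, hcard, rfl⟩
      exact hmain m hm n G hG.1 hcard
  -- the asymptotic
  have hlim : Tendsto (fun m : ℕ => (1 / (1 - Real.cos (Real.pi / m))) /
      (2 * (m : ℝ) ^ 2 / Real.pi ^ 2)) atTop (𝓝 1) := by
    have h1 : Tendsto (fun x : ℝ => (x / 2) ^ 2 / Real.sin (x / 2) ^ 2) (𝓝[≠] 0) (𝓝 1) := by
      have h2 : Tendsto (fun y : ℝ => Real.sin y / y) (𝓝[≠] 0) (𝓝 1) := by
        have h3 := Real.hasDerivAt_sin 0
        rw [hasDerivAt_iff_tendsto_slope_zero] at h3
        simp only [zero_add, Real.sin_zero, sub_zero, Real.cos_zero, smul_eq_mul] at h3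
        refine h3.congr fun y => ?_
        rw [div_eq_inv_mul]
      have h4 : Tendsto (fun x : ℝ => x / 2) (𝓝[≠] 0) (𝓝[≠] 0) := by
        apply tendsto_nhdsWithin_of_tendsto_nhds_of_eventually_within
        · have : Tendsto (fun x : ℝ => x / 2) (𝓝 0) (𝓝 (0 / 2)) := tendsto_id.div_const 2
          rw [zero_div] at this
          exact this.mono_left nhdsWithin_le_nhds
        · filter_upwards [self_mem_nhdsWithin] with x hx
          simpa using hx
      have h5 := ((h2.comp h4).inv₀ one_ne_zero).pow 2
      simp only [inv_one, one_pow] at h5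
      refine h5.congr fun x => ?_
      simp only [Function.comp_apply, inv_div, div_pow]
    have h6 : Tendsto (fun m : ℕ => Real.pi / (m : ℝ)) atTop (𝓝[≠] 0) := by
      apply tendsto_nhdsWithin_of_tendsto_nhds_of_eventually_within
      · exact tendsto_const_div_atTop_nhds_zero_nat Real.pi
      · filter_upwards [eventually_ge_atTop 1] with m hm
        have : (0 : ℝ) < m := by exact_mod_cast hm
        have := Real.pi_pos
        simp only [Set.mem_compl_iff, Set.mem_singleton_iff]
        positivity
    refine (h1.comp h6).congr' ?_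
    filter_upwards [eventually_ge_atTop 1] with m hm
    have hm0 : (0 : ℝ) < m := by exact_mod_cast hm
    have hpi := Real.pi_pos
    simp only [Function.comp_apply]
    have h7 : 1 - Real.cos (Real.pi / m) = 2 * Real.sin (Real.pi / m / 2) ^ 2 := by
      have h8 : Real.cos (Real.pi / m) = Real.cos (2 * (Real.pi / m / 2)) := by
        rw [mul_div_cancel₀ _ (two_ne_zero)]
      have h9 := Real.sin_sq_add_cos_sq (Real.pi / m / 2)
      rw [h8, Real.cos_two_mul]
      linarith
    rw [h7]
    field_simp
  refine ⟨fun m hm => ⟨fun n G _ => hmain m hm n G, hT m hm, hR m hm, path_relTime hm⟩, ?_, ?_⟩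
  · refine hlim.congr' ?_
    filter_upwards [eventually_ge_atTop 1] with m hm
    rw [hT m hm, path_relTime hm]
  · refine hlim.congr' ?_
    filter_upwards [eventually_ge_atTop 1] with m hm
    rw [hR m hm, path_relTime hm]

end Pool.Agent.Results.MP_ea35a0_co.PathIsExtremal
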